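import Pool.Agent.W142.TF.FinG
import Pool.Agent.W25.IT.RatWin
import Pool.Agent.TH899.UG.OGd

/-!
# More than half of the iterated equations
(the first theorem is adapted from the starting file `Pool.Agent.W142.TF.Rat`)
-/

set_option autoImplicit false

namespace Pool.Agent.Y860.IT

open Finset Filter Pool.Agent.H732R3.BigQ Pool.Agent.W59.GB Pool.Agent.H947R3.GM Pool.Agent.W25.IT
open Pool.Agent.W25.IT.Rat Pool.Agent.W142.TF Pool.Agent.TH899.UG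

/-- classes of exponents, admissible at all primes -/
theorem classes (a b c : ℤ) (ha : 1 ≤ a) (hb : 1 ≤ b) (hc : c ≠ 0) (hab : IsCoprime a b)
    (hac : IsCoprime a c) (hbc : IsCoprime b c) (hpar : ¬ (Odd a ∧ Odd b ∧ Odd c)) {n K : ℕ}
    (PF : Finset (Fin n) → Prop)
    (hQ : ∀ (a b : Fin n → Fin K → ℤ), (∀ g i, 0 < a g i) →
    Function.Injective (fun x : Fin n × Fin K => (a x.1 x.2, b x.1 x.2)) →
    (∀ p : ℕ, p.Prime → ∃ n : ℤ, ∀ g i, ¬ ((p : ℤ) ∣ a g i * n + b g i)) →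
    ∃ (S : Finset (Fin n)) (c : Fin n → Fin K), PF S ∧
      Big {n : ℕ | ∀ g ∈ S, 0 < a g (c g) * (n : ℤ) + b g (c g) ∧
        Prime (a g (c g) * (n : ℤ) + b g (c g))})
    (H : Fin n → Fin K → ℕ) (hH : AdmN 1 H) :
    ∃ (S : Finset (Fin n)) (t : Fin n → Fin K), PF S ∧ ∀ g ∈ S, ∀ g' ∈ S, H g (t g) < H g' (t g') →
      H g' (t g') - H g (t g) ∈ GoodEqExp a b c := by
  classical
  obtain ⟨hinj, hadm⟩ := hH
  obtain ⟨J, hJ⟩ : ∃ J : ℕ, ∀ x : Fin n × Fin K, H x.1 x.2 + 1 < J :=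
    ⟨(univ.sup fun x : Fin n × Fin K => H x.1 x.2) + 2, fun x => by
      have := le_sup (f := fun x : Fin n × Fin K => H x.1 x.2) (mem_univ x)
      omega⟩
  obtain ⟨β, hβ⟩ := exists_beta a b c (by omega) hab J
  have hHJ : ∀ x : Fin n × Fin K, 1 ≤ H x.1 x.2 + 1 ∧ H x.1 x.2 + 1 < J :=
    fun x => ⟨by omega, hJ x⟩
  obtain ⟨S, t, hS, hBig⟩ := hQ (fun g i => a ^ (J - (H g i + 1)) * b ^ (H g i + 1))
    (fun g i => β (H g i + 1))
    (fun g i => by positivity)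
    (by
      rintro x y h
      simp only [Prod.mk.injEq] at h
      have h1 := forms_inj ha hb hc hab hβ (hHJ x).2.le (hHJ y).2.le h.1 h.2
      exact hinj (show H x.1 x.2 = H y.1 y.2 by omega))
    (by
      intro p hp
      obtain ⟨n, hn⟩ := rat_admissible hab hac hbc hpar hβ (fun x : Fin n × Fin K => H x.1 x.2 + 1)
        hHJ hp (by
        intro _ hp1 hpc
        obtain ⟨n, hn⟩ := hadm p hp (fun hpN => hp.one_lt.ne' (Nat.dvd_one.1 hpN))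
        have hp0 : (0 : ℤ) < p := by exact_mod_cast hp.pos
        refine rat_miss hβ (fun x : Fin _ × Fin K => H x.1 x.2 + 1) (fun x => (hHJ x).2.le) hp
          (bad_not_dvd hab hp hp1).1 hp1 hpc (((-n) % p).toNat + 1) ?_
        rintro ⟨g, i⟩ h
        have h := Nat.ModEq.add_right_cancel' 1 h
        apply hn g i
        have h3 : ((H g i : ℕ) : ℤ) ≡ (((-n) % p).toNat : ℤ) [ZMOD p] := by
          exact_mod_cast (Int.natCast_modEq_iff).2 h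
        rw [Int.toNat_of_nonneg (Int.emod_nonneg _ hp0.ne')] at h3
        have h4 : ((H g i : ℕ) : ℤ) ≡ -n [ZMOD p] := h3.trans (Int.mod_modEq _ _)
        have h5 := (Int.modEq_iff_dvd.1 h4.symm)
        have h6 : ((H g i : ℕ) : ℤ) - -n = n + H g i := by ring
        rwa [h6] at h5)
      exact ⟨n, fun g i => hn (g, i)⟩)
  refine ⟨S, t, hS, ?_⟩
  intro g hgS g' hgS' hlt
  have conv : ∀ n : ℕ, (∀ g ∈ S, 0 < a ^ (J - (H g (t g) + 1)) * b ^ (H g (t g) + 1) * (n : ℤ) +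
      β (H g (t g) + 1) ∧ Prime (a ^ (J - (H g (t g) + 1)) * b ^ (H g (t g) + 1) * (n : ℤ) +
      β (H g (t g) + 1))) → ∀ g ∈ S, ∃ p : ℕ, p.Prime ∧
      a ^ (J - (H g (t g) + 1)) * b ^ (H g (t g) + 1) * n + β (H g (t g) + 1) = p := by
    intro n hn g hg
    obtain ⟨h4, h5⟩ := hn g hg
    exact ⟨_, by rw [Nat.prime_iff_prime_int, Int.toNat_of_nonneg h4.le]; exact h5,
      (Int.toNat_of_nonneg h4.le).symm⟩
  have h4 := eq_of_forms ha hb hβ (show H g (t g) + 1 < H g' (t g') + 1 by omega)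
    (hHJ (g', t g')).2.le (hBig.mono fun n hn => ⟨conv n hn g hgS, conv n hn g' hgS'⟩)
  rwa [Nat.add_sub_add_right] at h4

/-- more than one half of the iterates -/
theorem more_than_half : ∃ δ : ℝ, 0 < δ ∧ ∀ (a b c : ℤ), 1 ≤ a → 1 ≤ b → c ≠ 0 → IsCoprime a b →
    IsCoprime a c → IsCoprime b c → ¬ (Odd a ∧ Odd b ∧ Odd c) →
    ∃ M : ℕ, 0 < M ∧ ∀ N : ℕ, 0 < N → M ∣ N → ∃ L : ℕ, ∀ T : ℕ, L ≤ T → ∀ u : ℕ,
      (1 / 2 + δ) * T ≤ ({k : ℕ | u < k ∧ k ≤ u + T ∧ N * k ∈ GoodEqExp a b c}.ncard : ℝ) := by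
  obtain ⟨c₁, hc0, hc1, hQ⟩ := quarterD
  obtain ⟨n, hn1, hn⟩ := mth c₁ hc0 hc1
  obtain ⟨K, hK, hQ⟩ := hQ n
  refine ⟨c₁ / 16, by positivity, ?_⟩
  intro a b c ha hb hc hab hac hbc hpar
  refine hn K (GoodEqExp a b c) fun H hinj hdiv => ?_
  refine classes a b c ha hb hc hab hac hbc hpar (fun S => (n : ℝ) ≤ (4 - c₁) * S.card) hQ H ?_
  refine admN_of' H hinj fun p hp hle g i => ?_
  exact (Int.natCast_dvd_natCast.2 ((Nat.dvd_factorial hp.pos hle).trans (hdiv g i)))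

/-- two systems at the same time -/
theorem two_systems (δ : ℝ) (G G' : Set ℕ) (M M' : ℕ) (hM : 0 < M) (hM' : 0 < M')
    (h : ∀ N : ℕ, 0 < N → M ∣ N → ∃ L : ℕ, ∀ T : ℕ, L ≤ T → ∀ u : ℕ,
      (1 / 2 + δ) * T ≤ ({k : ℕ | u < k ∧ k ≤ u + T ∧ N * k ∈ G}.ncard : ℝ))
    (h' : ∀ N : ℕ, 0 < N → M' ∣ N → ∃ L : ℕ, ∀ T : ℕ, L ≤ T → ∀ u : ℕ,
      (1 / 2 + δ) * T ≤ ({k : ℕ | u < k ∧ k ≤ u + T ∧ N * k ∈ G'}.ncard : ℝ)) :
    ∀ N : ℕ, 0 < N → M * M' ∣ N → ∃ L : ℕ, ∀ T : ℕ, L ≤ T → ∀ u : ℕ,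
      2 * δ * T ≤ ({k : ℕ | u < k ∧ k ≤ u + T ∧ N * k ∈ G ∧ N * k ∈ G'}.ncard : ℝ) := by
  intro N hN hd
  obtain ⟨L, hL⟩ := h N hN ((dvd_mul_right _ _).trans hd)
  obtain ⟨L', hL'⟩ := h' N hN ((dvd_mul_left _ _).trans hd)
  refine ⟨max L L', fun T hT u => ?_⟩
  have h1 := hL T ((le_max_left _ _).trans hT) u
  have h2 := hL' T ((le_max_right _ _).trans hT) u
  obtain ⟨A, hA⟩ : ∃ A : Set ℕ, A = {k : ℕ | u < k ∧ k ≤ u + T ∧ N * k ∈ G} := ⟨_, rfl⟩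
  obtain ⟨A', hA'⟩ : ∃ A' : Set ℕ, A' = {k : ℕ | u < k ∧ k ≤ u + T ∧ N * k ∈ G'} := ⟨_, rfl⟩
  have hfin : A.Finite := by rw [hA]; exact (Set.finite_Ioc u (u + T)).subset fun k hk => ⟨hk.1, hk.2.1⟩
  have hfin' : A'.Finite := by
    rw [hA']; exact (Set.finite_Ioc u (u + T)).subset fun k hk => ⟨hk.1, hk.2.1⟩
  have h3 : {k : ℕ | u < k ∧ k ≤ u + T ∧ N * k ∈ G ∧ N * k ∈ G'} = A ∩ A' := by
    rw [hA, hA']
    ext k
    constructor
    · rintro ⟨e1, e2, e3, e4⟩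
      exact ⟨⟨e1, e2, e3⟩, e1, e2, e4⟩
    · rintro ⟨⟨e1, e2, e3⟩, _, _, e4⟩
      exact ⟨e1, e2, e3, e4⟩
  rw [← hA] at h1
  rw [← hA'] at h2
  rw [h3]
  have h4 : (A ∪ A').ncard ≤ T := by
    have h5 : A ∪ A' ⊆ (Ioc u (u + T) : Finset ℕ) := by
      rw [hA, hA']
      rintro k (hk | hk)
      · exact mem_coe.2 (mem_Ioc.2 ⟨hk.1, hk.2.1⟩)
      · exact mem_coe.2 (mem_Ioc.2 ⟨hk.1, hk.2.1⟩)
    have h6 := Set.ncard_le_ncard h5 (Finset.finite_toSet _)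
    rw [Set.ncard_coe_finset, Nat.card_Ioc] at h6
    omega
  have h5 := Set.ncard_union_add_ncard_inter A A' hfin hfin'
  have h6 : ((A ∪ A').ncard : ℝ) + ((A ∩ A').ncard : ℝ) = A.ncard + A'.ncard := by exact_mod_cast h5
  have h7 : ((A ∪ A').ncard : ℝ) ≤ T := by exact_mod_cast h4
  linarith

end Pool.Agent.Y860.IT
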